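import Pool.Agent.W275.UB.Stm2

/-! UB2-GENT: arbitrary finite types of unknowns. -/

set_option autoImplicit false

namespace Pool.Agent.W505.UB.GenT

open MvPolynomial Pool.Agent.W275.UB

theorem main : S_gen → S_genT := by
  intro hgen ι τ _ _ D G h h1 h2
  let e : Fin (Fintype.card τ) ≃ τ := (Fintype.equivFin τ).symm
  have key : ∀ (S : Type) [CommRing S] (φ : MvPolynomial ι ℤ →+* S)
      (x' : Fin (Fintype.card τ) → S) (g : MvPolynomial τ (MvPolynomial ι ℤ)),
      eval₂ φ x' (rename e.symm g) = eval₂ φ (x' ∘ e.symm) g := by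
    intro S _ φ x' g
    rw [eval₂_rename]
  have hA : ∀ (S : Type) [CommRing S] (φ : MvPolynomial ι ℤ →+* S)
      (x' : Fin (Fintype.card τ) → S),
      (∀ g ∈ (rename e.symm '' G : Set (MvPolynomial (Fin (Fintype.card τ)) (MvPolynomial ι ℤ))),
        eval₂ φ x' g = 0) ↔ ∀ g ∈ G, eval₂ φ (x' ∘ e.symm) g = 0 := by
    intro S _ φ x'
    constructor
    · intro hh g hg
      rw [← key]
      exact hh _ ⟨g, hg, rfl⟩
    · rintro hh _ ⟨g, hg, rfl⟩
      rw [key]
      exact hh g hg
  have hx : ∀ (S : Type) (x : τ → S), (x ∘ e) ∘ e.symm = x := by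
    intro S x
    funext t
    simp
  obtain ⟨L, iL, iA, x', hfd, hfr, hz, hne⟩ := hgen ι (Fintype.card τ) D
    (rename e.symm '' G) (rename e.symm h) (by
      intro Ω _ _ _ x' hx' j
      rw [hA] at hx'
      have := h1 Ω (x' ∘ e.symm) hx' (e j)
      simpa using this) (by
      intro hUD
      apply h2
      intro ε hε
      convert hUD ε hε using 2
      ext v
      constructor
      · rintro ⟨K, iK, iN, x, hK, hG, hh⟩
        refine ⟨K, iK, iN, x ∘ e, hK, ?_, ?_⟩
        · rw [hA, hx]
          exact hG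
        · rw [key, hx]
          exact hh
      · rintro ⟨K, iK, iN, x', hK, hG, hh⟩
        refine ⟨K, iK, iN, x' ∘ e.symm, hK, ?_, ?_⟩
        · rw [hA] at hG
          exact hG
        · rw [key] at hh
          exact hh)
  refine ⟨L, iL, iA, x' ∘ e.symm, hfd, hfr, ?_, ?_⟩
  · rw [hA] at hz
    exact hz
  · rw [key] at hne
    exact hne

end Pool.Agent.W505.UB.GenT
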