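import Pool.Agent.W275.UB.Stm2
import Pool.Agent.W135.UB.Lmg

/-! UB2-LMG2: local models for finite extensions of the field of rational functions, coefficients
in an order. -/

set_option autoImplicit false

namespace Pool.Agent.W505.UB.Lmg2

open MvPolynomial Pool.Agent.H936R2 Pool.Agent.H927R2.RD H294UB Pool.Agent.W275.UB
open Pool.Agent.W135.UB (dvd_aeval_sub map_aeval')

/-- a unit plus a multiple of `π` is a unit -/
lemma unit_add {A : Type} [CommRing A] [IsDomain A] [IsDiscreteValuationRing A] {π u x z : A}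
    (hπ : Irreducible π) (hu : IsUnit u) (hz : π ∣ z) (h : u = x + z) : IsUnit x := by
  rw [h] at hu
  rcases IsLocalRing.isUnit_or_isUnit_of_isUnit_add hu with h1 | h1
  · exact h1
  · exact absurd (isUnit_of_dvd_unit hz h1) hπ.not_isUnit

theorem main : S_theta2 → S_tensor → S_nfp → S_lmg2 := by
  intro hθ hT hN D p ι _ c₁ c₂ hp hv hc₂
  obtain ⟨v₀, hv₀⟩ := hv
  have : Fact p.Prime := ⟨hp⟩
  obtain ⟨θs, hθs1, hθs2⟩ := hθ p ι (fun i => (v₀ i : ℤ_[p])) 1
  simp only [pow_one] at hθs1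
  -- `c₁(θs)` is a unit
  have hu1 : IsUnit (aeval θs c₁ : ℤ_[p]) := by
    have h1 := dvd_aeval_sub (p : ℤ_[p]) θs (fun i => (v₀ i : ℤ_[p])) hθs1 c₁
    have h2 : (aeval (fun i => (v₀ i : ℤ_[p])) c₁ : ℤ_[p]) = 1 := by
      have h3 := map_aeval' (Int.castRingHom ℤ_[p]) v₀ c₁
      have h4 : (aeval v₀ c₁ : ℤ) = eval v₀ c₁ := by
        rw [MvPolynomial.aeval_def, MvPolynomial.eval₂_eq_eval_map]
        congr 1
        have : algebraMap ℤ ℤ = RingHom.id ℤ := rfl
        rw [this, MvPolynomial.map_id]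
      rw [h4, hv₀] at h3
      simpa using h3.symm
    rw [h2] at h1
    have h5 : ¬ (p : ℤ_[p]) ∣ aeval θs c₁ := by
      intro h6
      have h7 : (p : ℤ_[p]) ∣ 1 := by
        have := dvd_sub h6 h1
        rwa [sub_sub_cancel] at this
      exact (PadicInt.prime_p (p := p)).not_isUnit (isUnit_of_dvd_one h7)
    rw [← PadicInt.norm_lt_one_iff_dvd, not_lt] at h5
    rw [PadicInt.isUnit_iff]
    exact le_antisymm (PadicInt.norm_le_one _) h5
  -- `c₂(θs)`
  have hne2 : (aeval θs c₂ : ℤ_[p]) ≠ 0 := hθs2 c₂ hc₂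
  have hspec := PadicInt.unitCoeff_spec hne2
  set m := (aeval θs c₂ : ℤ_[p]).valuation with hm
  refine ⟨D * m, ?_⟩
  intro O J _ _ _ ω L _ _ _ hfin σ
  obtain ⟨θ, hθ1, hθ2⟩ := hθ p (ι × J) (fun q => ((ω.repr 1 q.2 : ℤ) : ℤ_[p]) * θs q.1) (m + 1)
  -- the embedding of the rational functions
  set g : MvPolynomial (ι × J) ℤ →+* ℚ_[p] :=
    (algebraMap ℤ_[p] ℚ_[p]).comp (aeval θ : MvPolynomial (ι × J) ℤ →ₐ[ℤ] ℤ_[p]).toRingHom with hg
  have hginj : Function.Injective g := by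
    rw [injective_iff_map_eq_zero]
    intro c hc
    by_contra hc0
    have h1 : algebraMap ℤ_[p] ℚ_[p] (aeval θ c) = 0 := hc
    have h2 : (aeval θ c : ℤ_[p]) = 0 :=
      (injective_iff_map_eq_zero (algebraMap ℤ_[p] ℚ_[p])).1
        (IsFractionRing.injective ℤ_[p] ℚ_[p]) _ h1
    exact hθ2 c hc0 h2
  obtain ⟨L', _, _, ψ, hfd, hfr, hψ⟩ := hT (EE (ι × J)) L ℚ_[p] (IsFractionRing.lift hginj)
  obtain ⟨A, _, _, _, _, _, π, hπ, hπp, hπD, hq, hz⟩ := hN p D L' (hfr.trans hfin)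
  have hAinj : Function.Injective (algebraMap A L') := IsFractionRing.injective A L'
  choose τ₀ hτ₀ using hz
  let τ : ℤ_[p] →+* A :=
    { toFun := τ₀
      map_one' := hAinj (by rw [hτ₀]; simp)
      map_mul' := fun x y => hAinj (by rw [hτ₀, map_mul, hτ₀, hτ₀]; simp)
      map_zero' := hAinj (by rw [hτ₀]; simp)
      map_add' := fun x y => hAinj (by rw [hτ₀, map_add, hτ₀, hτ₀]; simp) }
  have hτ : ∀ z, algebraMap A L' (τ z) = algebraMap ℚ_[p] L' (z : ℚ_[p]) := hτ₀
  -- the integers of `O`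
  have hint : ∀ x : O, ∃ y : A, algebraMap A L' y = ψ (σ x) := by
    intro x
    have : Module.Finite ℤ O := Module.Finite.of_basis ω
    have h1 : IsIntegral ℤ x := IsIntegral.of_finite ℤ x
    have h2 : IsIntegral ℤ (ψ (σ x)) := h1.map ((ψ.comp σ).toIntAlgHom)
    have h3 : IsIntegral A (ψ (σ x)) := h2.tower_top
    exact IsIntegrallyClosed.isIntegral_iff.mp h3
  choose σ₀ hσ₀ using hint
  let σA : O →+* A :=
    { toFun := σ₀
      map_one' := hAinj (by rw [hσ₀]; simp)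
      map_mul' := fun x y => hAinj (by simp only [hσ₀, map_mul])
      map_zero' := hAinj (by rw [hσ₀]; simp)
      map_add' := fun x y => hAinj (by simp only [hσ₀, map_add]) }
  have hσA : ∀ x, algebraMap A L' (σA x) = ψ (σ x) := hσ₀
  have hone : ∑ j, ((ω.repr 1 j : ℤ) : A) * σA (ω j) = 1 := by
    have h1 := congrArg σA (ω.sum_repr 1)
    rw [map_sum, map_one σA] at h1
    rw [← h1]
    refine Finset.sum_congr rfl fun j _ => ?_
    rw [zsmul_eq_mul, map_mul, map_intCast]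
  have hgX : ∀ q : ι × J, ψ (gn (ι × J) L (X q)) = algebraMap A L' (τ (θ q)) := by
    intro q
    rw [hτ]
    show ψ (algebraMap (EE (ι × J)) L (algebraMap (MvPolynomial (ι × J) ℤ) (EE (ι × J)) (X q))) = _
    rw [hψ, IsFractionRing.lift_algebraMap]
    congr 1
    show algebraMap ℤ_[p] ℚ_[p] (aeval θ (X q)) = _
    rw [MvPolynomial.aeval_X]
    rfl
  let a : ι → A := fun i => ∑ j, σA (ω j) * τ (θ (i, j))
  -- congruences
  have hcong : ∀ i, (p : A) ^ (m + 1) ∣ a i - τ (θs i) := by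
    intro i
    have e : a i - τ (θs i) = ∑ j, σA (ω j) *
        τ (θ (i, j) - ((ω.repr 1 j : ℤ) : ℤ_[p]) * θs i) := by
      have e1 : τ (θs i) = ∑ j, (((ω.repr 1 j : ℤ) : A) * σA (ω j)) * τ (θs i) := by
        rw [← Finset.sum_mul, hone, one_mul]
      rw [e1, ← Finset.sum_sub_distrib]
      refine Finset.sum_congr rfl fun j _ => ?_
      rw [map_sub, map_mul, map_intCast]
      ring
    rw [e]
    refine Finset.dvd_sum fun j _ => Dvd.dvd.mul_left ?_ _
    have h1 := map_dvd τ (hθ1 (i, j))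
    rwa [map_pow, map_natCast] at h1
  have hcc : ∀ c : MvPolynomial ι ℤ, (p : A) ^ (m + 1) ∣ aeval a c - τ (aeval θs c) := by
    intro c
    rw [map_aeval' τ θs c]
    exact dvd_aeval_sub _ _ _ hcong c
  refine ⟨L', inferInstance, ψ, A, inferInstance, inferInstance, inferInstance, inferInstance,
    inferInstance, π, a, hπ, hπp, ?_, ?_, ?_, hq⟩
  · intro i
    show algebraMap A L' (∑ j, σA (ω j) * τ (θ (i, j))) =
      ψ (∑ j, σ (ω j) * gn (ι × J) L (X (i, j)))
    rw [map_sum, map_sum]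
    refine Finset.sum_congr rfl fun j _ => ?_
    rw [map_mul, map_mul, hσA, hgX]
  · obtain ⟨y, hy⟩ := hcc c₁
    refine unit_add (z := -((p : A) ^ (m + 1) * y)) hπ (hu1.map τ) ?_ ?_
    · rw [dvd_neg, pow_succ']
      exact Dvd.dvd.mul_right (Dvd.dvd.mul_right hπp _) _
    · rw [← hy]; ring
  · obtain ⟨y, hy⟩ := hcc c₂
    have hcu : IsUnit (τ ((PadicInt.unitCoeff hne2 : ℤ_[p]ˣ) : ℤ_[p]) + (p : A) * y) := by
      refine unit_add (u := τ ((PadicInt.unitCoeff hne2 : ℤ_[p]ˣ) : ℤ_[p]))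
        (z := -((p : A) * y)) hπ ((Units.isUnit _).map τ) ?_ ?_
      · rw [dvd_neg]
        exact Dvd.dvd.mul_right hπp _
      · ring
    have hval : aeval a c₂ =
        (τ ((PadicInt.unitCoeff hne2 : ℤ_[p]ˣ) : ℤ_[p]) + (p : A) * y) * (p : A) ^ m := by
      have h1 : aeval a c₂ = τ (aeval θs c₂) + (p : A) ^ (m + 1) * y := by
        rw [← hy]; ring
      have h2 : τ (aeval θs c₂) =
          τ ((PadicInt.unitCoeff hne2 : ℤ_[p]ˣ) : ℤ_[p]) * (p : A) ^ m := by
        conv_lhs => rw [hspec]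
        rw [map_mul, map_pow, map_natCast]
      rw [h1, h2]
      ring
    rw [hval]
    intro hdvd
    have hp0 : (p : A) ≠ 0 := by
      intro h
      rw [h] at hπD
      exact hπD (dvd_zero _)
    obtain ⟨e, u, hu⟩ := IsDiscreteValuationRing.eq_unit_mul_pow_irreducible hp0 hπ
    have he : e ≤ D := by
      by_contra hc
      apply hπD
      rw [hu]
      exact Dvd.dvd.mul_left (pow_dvd_pow π (by omega)) _
    have h0 : (p : A) ^ m = (u : A) ^ m * π ^ (e * m) := by rw [hu, mul_pow, ← pow_mul]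
    rw [h0] at hdvd
    have h1 : π ^ (D * m + 1) ∣ π ^ (e * m) := by
      have h2 := hcu.mul (u.isUnit.pow m)
      rw [← mul_assoc] at hdvd
      exact (h2.dvd_mul_left).1 hdvd
    have h3 := (pow_dvd_pow_iff hπ.ne_zero hπ.not_isUnit).1 h1
    have h4 : e * m ≤ D * m := Nat.mul_le_mul_right m he
    omega

end Pool.Agent.W505.UB.Lmg2
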